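import Pool.Agent.Helper79.HX.Small

/-!
# Blocks: `k` equal faces absorb `t` triangles with at most `2 t` pentagons
-/

namespace Pool.Agent.Helper79.HX

open Finset

theorem Conf.blk3 {M : Multiset ℕ} (h : Conf 5 3 4 M) : Conf 5 3 4 (M +
    Multiset.replicate 6 7 + Multiset.replicate 2 3 + Multiset.replicate 0 5) := by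
  have h1 : Conf 6 4 4 (7 ::ₘ 3 ::ₘ M) := h.swap.rot.move2
  have h2 : Conf 5 3 5 (7 ::ₘ 7 ::ₘ 3 ::ₘ M) := h1.rot.move1
  have h3 : Conf 5 4 6 (7 ::ₘ 3 ::ₘ 7 ::ₘ 7 ::ₘ 3 ::ₘ M) := h2.rot.move2
  have h4 : Conf 6 3 5 (7 ::ₘ 7 ::ₘ 3 ::ₘ 7 ::ₘ 7 ::ₘ 3 ::ₘ M) := h3.swap.move1
  have h5 : Conf 4 3 6 (7 ::ₘ 7 ::ₘ 7 ::ₘ 3 ::ₘ 7 ::ₘ 7 ::ₘ 3 ::ₘ M) := h4.rot.move1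
  have h6 : Conf 5 3 4 (7 ::ₘ 7 ::ₘ 7 ::ₘ 7 ::ₘ 3 ::ₘ 7 ::ₘ 7 ::ₘ 3 ::ₘ M) := h5.swap.move1
  refine (h6).congr ?_
  intro j
  simp only [Multiset.count_add, Multiset.count_cons, Multiset.replicate_succ,
    Multiset.replicate_zero, Multiset.count_zero]
  omega

theorem Conf.blk4 {M : Multiset ℕ} (h : Conf 5 3 4 M) : Conf 5 3 4 (M +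
    Multiset.replicate 4 8 + Multiset.replicate 2 3 + Multiset.replicate 2 5) := by
  have h1 : Conf 7 4 5 (5 ::ₘ 3 ::ₘ M) := h.move2
  have h2 : Conf 5 3 6 (8 ::ₘ 5 ::ₘ 3 ::ₘ M) := h1.rot.move1
  have h3 : Conf 5 4 6 (8 ::ₘ 3 ::ₘ 8 ::ₘ 5 ::ₘ 3 ::ₘ M) := h2.rot.swap.move2
  have h4 : Conf 6 3 7 (5 ::ₘ 8 ::ₘ 3 ::ₘ 8 ::ₘ 5 ::ₘ 3 ::ₘ M) := h3.move1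
  have h5 : Conf 7 3 4 (8 ::ₘ 5 ::ₘ 8 ::ₘ 3 ::ₘ 8 ::ₘ 5 ::ₘ 3 ::ₘ M) := h4.swap.move1
  have h6 : Conf 4 3 5 (8 ::ₘ 8 ::ₘ 5 ::ₘ 8 ::ₘ 3 ::ₘ 8 ::ₘ 5 ::ₘ 3 ::ₘ M) := h5.rot.move1
  refine (h6.swap.rot.swap).congr ?_
  intro j
  simp only [Multiset.count_add, Multiset.count_cons, Multiset.replicate_succ,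
    Multiset.replicate_zero, Multiset.count_zero]
  omega

theorem Conf.blk5 {M : Multiset ℕ} (h : Conf 5 3 4 M) : Conf 5 3 4 (M +
    Multiset.replicate 3 9 + Multiset.replicate 2 3 + Multiset.replicate 3 5) := by
  have h1 : Conf 6 3 4 (5 ::ₘ M) := h.swap.move1
  have h2 : Conf 6 4 7 (5 ::ₘ 3 ::ₘ 5 ::ₘ M) := h1.swap.rot.swap.move2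
  have h3 : Conf 6 4 7 (9 ::ₘ 3 ::ₘ 5 ::ₘ 3 ::ₘ 5 ::ₘ M) := h2.rot.swap.move2
  have h4 : Conf 7 3 8 (5 ::ₘ 9 ::ₘ 3 ::ₘ 5 ::ₘ 3 ::ₘ 5 ::ₘ M) := h3.move1
  have h5 : Conf 8 3 4 (9 ::ₘ 5 ::ₘ 9 ::ₘ 3 ::ₘ 5 ::ₘ 3 ::ₘ 5 ::ₘ M) := h4.swap.move1
  have h6 : Conf 4 3 5 (9 ::ₘ 9 ::ₘ 5 ::ₘ 9 ::ₘ 3 ::ₘ 5 ::ₘ 3 ::ₘ 5 ::ₘ M) := h5.rot.move1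
  refine (h6.swap.rot.swap).congr ?_
  intro j
  simp only [Multiset.count_add, Multiset.count_cons, Multiset.replicate_succ,
    Multiset.replicate_zero, Multiset.count_zero]
  omega

theorem Conf.blk6 {M : Multiset ℕ} (h : Conf 5 3 4 M) : Conf 5 3 4 (M +
    Multiset.replicate 5 10 + Multiset.replicate 4 3 + Multiset.replicate 8 5) := by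
  have h1 : Conf 6 3 4 (5 ::ₘ M) := h.swap.move1
  have h2 : Conf 7 3 4 (5 ::ₘ 5 ::ₘ M) := h1.swap.move1
  have h3 : Conf 6 4 8 (5 ::ₘ 3 ::ₘ 5 ::ₘ 5 ::ₘ M) := h2.swap.rot.swap.move2
  have h4 : Conf 7 3 9 (5 ::ₘ 5 ::ₘ 3 ::ₘ 5 ::ₘ 5 ::ₘ M) := h3.move1
  have h5 : Conf 8 3 4 (10 ::ₘ 5 ::ₘ 5 ::ₘ 3 ::ₘ 5 ::ₘ 5 ::ₘ M) := h4.swap.move1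
  have h6 : Conf 6 4 9 (5 ::ₘ 3 ::ₘ 10 ::ₘ 5 ::ₘ 5 ::ₘ 3 ::ₘ 5 ::ₘ 5 ::ₘ M) := h5.swap.rot.swap.move2
  have h7 : Conf 7 3 5 (10 ::ₘ 5 ::ₘ 3 ::ₘ 10 ::ₘ 5 ::ₘ 5 ::ₘ 3 ::ₘ 5 ::ₘ 5 ::ₘ M) := h6.swap.move1
  have h8 : Conf 9 4 6 (5 ::ₘ 3 ::ₘ 10 ::ₘ 5 ::ₘ 3 ::ₘ 10 ::ₘ 5 ::ₘ 5 ::ₘ 3 ::ₘ 5 ::ₘ 5 ::ₘ M) := h7.move2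
  have h9 : Conf 5 3 7 (10 ::ₘ 5 ::ₘ 3 ::ₘ 10 ::ₘ 5 ::ₘ 3 ::ₘ 10 ::ₘ 5 ::ₘ 5 ::ₘ 3 ::ₘ 5 ::ₘ 5 ::ₘ M) := h8.rot.move1
  have h10 : Conf 7 4 8 (5 ::ₘ 3 ::ₘ 10 ::ₘ 5 ::ₘ 3 ::ₘ 10 ::ₘ 5 ::ₘ 3 ::ₘ 10 ::ₘ 5 ::ₘ 5 ::ₘ 3 ::ₘ 5 ::ₘ 5 ::ₘ M) := h9.move2
  have h11 : Conf 8 3 9 (5 ::ₘ 5 ::ₘ 3 ::ₘ 10 ::ₘ 5 ::ₘ 3 ::ₘ 10 ::ₘ 5 ::ₘ 3 ::ₘ 10 ::ₘ 5 ::ₘ 5 ::ₘ 3 ::ₘ 5 ::ₘ 5 ::ₘ M) := h10.move1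
  have h12 : Conf 9 3 4 (10 ::ₘ 5 ::ₘ 5 ::ₘ 3 ::ₘ 10 ::ₘ 5 ::ₘ 3 ::ₘ 10 ::ₘ 5 ::ₘ 3 ::ₘ 10 ::ₘ 5 ::ₘ 5 ::ₘ 3 ::ₘ 5 ::ₘ 5 ::ₘ M) := h11.swap.move1
  have h13 : Conf 4 3 5 (10 ::ₘ 10 ::ₘ 5 ::ₘ 5 ::ₘ 3 ::ₘ 10 ::ₘ 5 ::ₘ 3 ::ₘ 10 ::ₘ 5 ::ₘ 3 ::ₘ 10 ::ₘ 5 ::ₘ 5 ::ₘ 3 ::ₘ 5 ::ₘ 5 ::ₘ M) := h12.rot.move1
  refine (h13.swap.rot.swap).congr ?_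
  intro j
  simp only [Multiset.count_add, Multiset.count_cons, Multiset.replicate_succ,
    Multiset.replicate_zero, Multiset.count_zero]
  omega

theorem Conf.blk7 {M : Multiset ℕ} (h : Conf 5 3 4 M) : Conf 5 3 4 (M +
    Multiset.replicate 2 11 + Multiset.replicate 2 3 + Multiset.replicate 4 5) := by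
  have h1 : Conf 7 4 5 (5 ::ₘ 3 ::ₘ M) := h.move2
  have h2 : Conf 8 3 6 (5 ::ₘ 5 ::ₘ 3 ::ₘ M) := h1.move1
  have h3 : Conf 8 4 9 (5 ::ₘ 3 ::ₘ 5 ::ₘ 5 ::ₘ 3 ::ₘ M) := h2.swap.rot.swap.move2
  have h4 : Conf 9 3 10 (5 ::ₘ 5 ::ₘ 3 ::ₘ 5 ::ₘ 5 ::ₘ 3 ::ₘ M) := h3.move1
  have h5 : Conf 10 3 4 (11 ::ₘ 5 ::ₘ 5 ::ₘ 3 ::ₘ 5 ::ₘ 5 ::ₘ 3 ::ₘ M) := h4.swap.move1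
  have h6 : Conf 4 3 5 (11 ::ₘ 11 ::ₘ 5 ::ₘ 5 ::ₘ 3 ::ₘ 5 ::ₘ 5 ::ₘ 3 ::ₘ M) := h5.rot.move1
  refine (h6.swap.rot.swap).congr ?_
  intro j
  simp only [Multiset.count_add, Multiset.count_cons, Multiset.replicate_succ,
    Multiset.replicate_zero, Multiset.count_zero]
  omega

theorem Conf.blk8 {M : Multiset ℕ} (h : Conf 5 3 4 M) : Conf 5 3 4 (M +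
    Multiset.replicate 3 12 + Multiset.replicate 4 3 + Multiset.replicate 6 5) := by
  have h1 : Conf 7 4 5 (5 ::ₘ 3 ::ₘ M) := h.move2
  have h2 : Conf 8 3 6 (5 ::ₘ 5 ::ₘ 3 ::ₘ M) := h1.move1
  have h3 : Conf 10 4 7 (5 ::ₘ 3 ::ₘ 5 ::ₘ 5 ::ₘ 3 ::ₘ M) := h2.move2
  have h4 : Conf 6 4 8 (12 ::ₘ 3 ::ₘ 5 ::ₘ 3 ::ₘ 5 ::ₘ 5 ::ₘ 3 ::ₘ M) := h3.rot.move2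
  have h5 : Conf 7 3 9 (5 ::ₘ 12 ::ₘ 3 ::ₘ 5 ::ₘ 3 ::ₘ 5 ::ₘ 5 ::ₘ 3 ::ₘ M) := h4.move1
  have h6 : Conf 9 4 10 (5 ::ₘ 3 ::ₘ 5 ::ₘ 12 ::ₘ 3 ::ₘ 5 ::ₘ 3 ::ₘ 5 ::ₘ 5 ::ₘ 3 ::ₘ M) := h5.move2
  have h7 : Conf 10 3 11 (5 ::ₘ 5 ::ₘ 3 ::ₘ 5 ::ₘ 12 ::ₘ 3 ::ₘ 5 ::ₘ 3 ::ₘ 5 ::ₘ 5 ::ₘ 3 ::ₘ M) := h6.move1
  have h8 : Conf 11 3 4 (12 ::ₘ 5 ::ₘ 5 ::ₘ 3 ::ₘ 5 ::ₘ 12 ::ₘ 3 ::ₘ 5 ::ₘ 3 ::ₘ 5 ::ₘ 5 ::ₘ 3 ::ₘ M) := h7.swap.move1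
  have h9 : Conf 4 3 5 (12 ::ₘ 12 ::ₘ 5 ::ₘ 5 ::ₘ 3 ::ₘ 5 ::ₘ 12 ::ₘ 3 ::ₘ 5 ::ₘ 3 ::ₘ 5 ::ₘ 5 ::ₘ 3 ::ₘ M) := h8.rot.move1
  refine (h9.swap.rot.swap).congr ?_
  intro j
  simp only [Multiset.count_add, Multiset.count_cons, Multiset.replicate_succ,
    Multiset.replicate_zero, Multiset.count_zero]
  omega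

theorem Conf.blk9 {M : Multiset ℕ} (h : Conf 5 3 4 M) : Conf 5 3 4 (M +
    Multiset.replicate 4 13 + Multiset.replicate 6 3 + Multiset.replicate 10 5) := by
  have h1 : Conf 7 4 5 (5 ::ₘ 3 ::ₘ M) := h.move2
  have h2 : Conf 8 3 6 (5 ::ₘ 5 ::ₘ 3 ::ₘ M) := h1.move1
  have h3 : Conf 10 4 7 (5 ::ₘ 3 ::ₘ 5 ::ₘ 5 ::ₘ 3 ::ₘ M) := h2.move2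
  have h4 : Conf 11 3 8 (5 ::ₘ 5 ::ₘ 3 ::ₘ 5 ::ₘ 5 ::ₘ 3 ::ₘ M) := h3.move1
  have h5 : Conf 10 4 12 (5 ::ₘ 3 ::ₘ 5 ::ₘ 5 ::ₘ 3 ::ₘ 5 ::ₘ 5 ::ₘ 3 ::ₘ M) := h4.swap.rot.swap.move2
  have h6 : Conf 11 3 5 (13 ::ₘ 5 ::ₘ 3 ::ₘ 5 ::ₘ 5 ::ₘ 3 ::ₘ 5 ::ₘ 5 ::ₘ 3 ::ₘ M) := h5.swap.move1
  have h7 : Conf 7 4 12 (5 ::ₘ 3 ::ₘ 13 ::ₘ 5 ::ₘ 3 ::ₘ 5 ::ₘ 5 ::ₘ 3 ::ₘ 5 ::ₘ 5 ::ₘ 3 ::ₘ M) := h6.swap.rot.swap.move2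
  have h8 : Conf 8 3 5 (13 ::ₘ 5 ::ₘ 3 ::ₘ 13 ::ₘ 5 ::ₘ 3 ::ₘ 5 ::ₘ 5 ::ₘ 3 ::ₘ 5 ::ₘ 5 ::ₘ 3 ::ₘ M) := h7.swap.move1
  have h9 : Conf 7 4 9 (5 ::ₘ 3 ::ₘ 13 ::ₘ 5 ::ₘ 3 ::ₘ 13 ::ₘ 5 ::ₘ 3 ::ₘ 5 ::ₘ 5 ::ₘ 3 ::ₘ 5 ::ₘ 5 ::ₘ 3 ::ₘ M) := h8.swap.rot.swap.move2
  have h10 : Conf 8 3 10 (5 ::ₘ 5 ::ₘ 3 ::ₘ 13 ::ₘ 5 ::ₘ 3 ::ₘ 13 ::ₘ 5 ::ₘ 3 ::ₘ 5 ::ₘ 5 ::ₘ 3 ::ₘ 5 ::ₘ 5 ::ₘ 3 ::ₘ M) := h9.move1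
  have h11 : Conf 10 4 11 (5 ::ₘ 3 ::ₘ 5 ::ₘ 5 ::ₘ 3 ::ₘ 13 ::ₘ 5 ::ₘ 3 ::ₘ 13 ::ₘ 5 ::ₘ 3 ::ₘ 5 ::ₘ 5 ::ₘ 3 ::ₘ 5 ::ₘ 5 ::ₘ 3 ::ₘ M) := h10.move2
  have h12 : Conf 11 3 12 (5 ::ₘ 5 ::ₘ 3 ::ₘ 5 ::ₘ 5 ::ₘ 3 ::ₘ 13 ::ₘ 5 ::ₘ 3 ::ₘ 13 ::ₘ 5 ::ₘ 3 ::ₘ 5 ::ₘ 5 ::ₘ 3 ::ₘ 5 ::ₘ 5 ::ₘ 3 ::ₘ M) := h11.move1
  have h13 : Conf 12 3 4 (13 ::ₘ 5 ::ₘ 5 ::ₘ 3 ::ₘ 5 ::ₘ 5 ::ₘ 3 ::ₘ 13 ::ₘ 5 ::ₘ 3 ::ₘ 13 ::ₘ 5 ::ₘ 3 ::ₘ 5 ::ₘ 5 ::ₘ 3 ::ₘ 5 ::ₘ 5 ::ₘ 3 ::ₘ M) := h12.swap.move1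
  have h14 : Conf 4 3 5 (13 ::ₘ 13 ::ₘ 5 ::ₘ 5 ::ₘ 3 ::ₘ 5 ::ₘ 5 ::ₘ 3 ::ₘ 13 ::ₘ 5 ::ₘ 3 ::ₘ 13 ::ₘ 5 ::ₘ 3 ::ₘ 5 ::ₘ 5 ::ₘ 3 ::ₘ 5 ::ₘ 5 ::ₘ 3 ::ₘ M) := h13.rot.move1
  refine (h14.swap.rot.swap).congr ?_
  intro j
  simp only [Multiset.count_add, Multiset.count_cons, Multiset.replicate_succ,
    Multiset.replicate_zero, Multiset.count_zero]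
  omega

theorem Conf.blk10 {M : Multiset ℕ} (h : Conf 5 3 4 M) : Conf 5 3 4 (M +
    Multiset.replicate 4 14 + Multiset.replicate 7 3 + Multiset.replicate 11 5) := by
  have h1 : Conf 6 3 4 (5 ::ₘ M) := h.swap.move1
  have h2 : Conf 8 4 5 (5 ::ₘ 3 ::ₘ 5 ::ₘ M) := h1.move2
  have h3 : Conf 9 3 6 (5 ::ₘ 5 ::ₘ 3 ::ₘ 5 ::ₘ M) := h2.move1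
  have h4 : Conf 8 4 10 (5 ::ₘ 3 ::ₘ 5 ::ₘ 5 ::ₘ 3 ::ₘ 5 ::ₘ M) := h3.swap.rot.swap.move2
  have h5 : Conf 9 3 11 (5 ::ₘ 5 ::ₘ 3 ::ₘ 5 ::ₘ 5 ::ₘ 3 ::ₘ 5 ::ₘ M) := h4.move1
  have h6 : Conf 11 4 12 (5 ::ₘ 3 ::ₘ 5 ::ₘ 5 ::ₘ 3 ::ₘ 5 ::ₘ 5 ::ₘ 3 ::ₘ 5 ::ₘ M) := h5.move2
  have h7 : Conf 6 4 12 (14 ::ₘ 3 ::ₘ 5 ::ₘ 3 ::ₘ 5 ::ₘ 5 ::ₘ 3 ::ₘ 5 ::ₘ 5 ::ₘ 3 ::ₘ 5 ::ₘ M) := h6.rot.swap.move2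
  have h8 : Conf 8 4 5 (14 ::ₘ 3 ::ₘ 14 ::ₘ 3 ::ₘ 5 ::ₘ 3 ::ₘ 5 ::ₘ 5 ::ₘ 3 ::ₘ 5 ::ₘ 5 ::ₘ 3 ::ₘ 5 ::ₘ M) := h7.swap.move2
  have h9 : Conf 9 3 6 (5 ::ₘ 14 ::ₘ 3 ::ₘ 14 ::ₘ 3 ::ₘ 5 ::ₘ 3 ::ₘ 5 ::ₘ 5 ::ₘ 3 ::ₘ 5 ::ₘ 5 ::ₘ 3 ::ₘ 5 ::ₘ M) := h8.move1
  have h10 : Conf 8 4 10 (5 ::ₘ 3 ::ₘ 5 ::ₘ 14 ::ₘ 3 ::ₘ 14 ::ₘ 3 ::ₘ 5 ::ₘ 3 ::ₘ 5 ::ₘ 5 ::ₘ 3 ::ₘ 5 ::ₘ 5 ::ₘ 3 ::ₘ 5 ::ₘ M) := h9.swap.rot.swap.move2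
  have h11 : Conf 9 3 11 (5 ::ₘ 5 ::ₘ 3 ::ₘ 5 ::ₘ 14 ::ₘ 3 ::ₘ 14 ::ₘ 3 ::ₘ 5 ::ₘ 3 ::ₘ 5 ::ₘ 5 ::ₘ 3 ::ₘ 5 ::ₘ 5 ::ₘ 3 ::ₘ 5 ::ₘ M) := h10.move1
  have h12 : Conf 11 4 12 (5 ::ₘ 3 ::ₘ 5 ::ₘ 5 ::ₘ 3 ::ₘ 5 ::ₘ 14 ::ₘ 3 ::ₘ 14 ::ₘ 3 ::ₘ 5 ::ₘ 3 ::ₘ 5 ::ₘ 5 ::ₘ 3 ::ₘ 5 ::ₘ 5 ::ₘ 3 ::ₘ 5 ::ₘ M) := h11.move2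
  have h13 : Conf 12 3 13 (5 ::ₘ 5 ::ₘ 3 ::ₘ 5 ::ₘ 5 ::ₘ 3 ::ₘ 5 ::ₘ 14 ::ₘ 3 ::ₘ 14 ::ₘ 3 ::ₘ 5 ::ₘ 3 ::ₘ 5 ::ₘ 5 ::ₘ 3 ::ₘ 5 ::ₘ 5 ::ₘ 3 ::ₘ 5 ::ₘ M) := h12.move1
  have h14 : Conf 13 3 4 (14 ::ₘ 5 ::ₘ 5 ::ₘ 3 ::ₘ 5 ::ₘ 5 ::ₘ 3 ::ₘ 5 ::ₘ 14 ::ₘ 3 ::ₘ 14 ::ₘ 3 ::ₘ 5 ::ₘ 3 ::ₘ 5 ::ₘ 5 ::ₘ 3 ::ₘ 5 ::ₘ 5 ::ₘ 3 ::ₘ 5 ::ₘ M) := h13.swap.move1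
  have h15 : Conf 4 3 5 (14 ::ₘ 14 ::ₘ 5 ::ₘ 5 ::ₘ 3 ::ₘ 5 ::ₘ 5 ::ₘ 3 ::ₘ 5 ::ₘ 14 ::ₘ 3 ::ₘ 14 ::ₘ 3 ::ₘ 5 ::ₘ 3 ::ₘ 5 ::ₘ 5 ::ₘ 3 ::ₘ 5 ::ₘ 5 ::ₘ 3 ::ₘ 5 ::ₘ M) := h14.rot.move1
  refine (h15.swap.rot.swap).congr ?_
  intro j
  simp only [Multiset.count_add, Multiset.count_cons, Multiset.replicate_succ,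
    Multiset.replicate_zero, Multiset.count_zero]
  omega

theorem Conf.blk11 {M : Multiset ℕ} (h : Conf 5 3 4 M) : Conf 5 3 4 (M +
    Multiset.replicate 4 15 + Multiset.replicate 8 3 + Multiset.replicate 12 5) := by
  have h1 : Conf 7 4 5 (5 ::ₘ 3 ::ₘ M) := h.move2
  have h2 : Conf 8 3 6 (5 ::ₘ 5 ::ₘ 3 ::ₘ M) := h1.move1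
  have h3 : Conf 10 4 7 (5 ::ₘ 3 ::ₘ 5 ::ₘ 5 ::ₘ 3 ::ₘ M) := h2.move2
  have h4 : Conf 11 3 8 (5 ::ₘ 5 ::ₘ 3 ::ₘ 5 ::ₘ 5 ::ₘ 3 ::ₘ M) := h3.move1
  have h5 : Conf 13 4 9 (5 ::ₘ 3 ::ₘ 5 ::ₘ 5 ::ₘ 3 ::ₘ 5 ::ₘ 5 ::ₘ 3 ::ₘ M) := h4.move2
  have h6 : Conf 11 4 5 (15 ::ₘ 3 ::ₘ 5 ::ₘ 3 ::ₘ 5 ::ₘ 5 ::ₘ 3 ::ₘ 5 ::ₘ 5 ::ₘ 3 ::ₘ M) := h5.swap.rot.move2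
  have h7 : Conf 12 3 6 (5 ::ₘ 15 ::ₘ 3 ::ₘ 5 ::ₘ 3 ::ₘ 5 ::ₘ 5 ::ₘ 3 ::ₘ 5 ::ₘ 5 ::ₘ 3 ::ₘ M) := h6.move1
  have h8 : Conf 8 4 13 (5 ::ₘ 3 ::ₘ 5 ::ₘ 15 ::ₘ 3 ::ₘ 5 ::ₘ 3 ::ₘ 5 ::ₘ 5 ::ₘ 3 ::ₘ 5 ::ₘ 5 ::ₘ 3 ::ₘ M) := h7.swap.rot.swap.move2
  have h9 : Conf 6 4 9 (15 ::ₘ 3 ::ₘ 5 ::ₘ 3 ::ₘ 5 ::ₘ 15 ::ₘ 3 ::ₘ 5 ::ₘ 3 ::ₘ 5 ::ₘ 5 ::ₘ 3 ::ₘ 5 ::ₘ 5 ::ₘ 3 ::ₘ M) := h8.rot.swap.move2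
  have h10 : Conf 7 3 10 (5 ::ₘ 15 ::ₘ 3 ::ₘ 5 ::ₘ 3 ::ₘ 5 ::ₘ 15 ::ₘ 3 ::ₘ 5 ::ₘ 3 ::ₘ 5 ::ₘ 5 ::ₘ 3 ::ₘ 5 ::ₘ 5 ::ₘ 3 ::ₘ M) := h9.move1
  have h11 : Conf 9 4 11 (5 ::ₘ 3 ::ₘ 5 ::ₘ 15 ::ₘ 3 ::ₘ 5 ::ₘ 3 ::ₘ 5 ::ₘ 15 ::ₘ 3 ::ₘ 5 ::ₘ 3 ::ₘ 5 ::ₘ 5 ::ₘ 3 ::ₘ 5 ::ₘ 5 ::ₘ 3 ::ₘ M) := h10.move2
  have h12 : Conf 10 3 12 (5 ::ₘ 5 ::ₘ 3 ::ₘ 5 ::ₘ 15 ::ₘ 3 ::ₘ 5 ::ₘ 3 ::ₘ 5 ::ₘ 15 ::ₘ 3 ::ₘ 5 ::ₘ 3 ::ₘ 5 ::ₘ 5 ::ₘ 3 ::ₘ 5 ::ₘ 5 ::ₘ 3 ::ₘ M) := h11.move1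
  have h13 : Conf 12 4 13 (5 ::ₘ 3 ::ₘ 5 ::ₘ 5 ::ₘ 3 ::ₘ 5 ::ₘ 15 ::ₘ 3 ::ₘ 5 ::ₘ 3 ::ₘ 5 ::ₘ 15 ::ₘ 3 ::ₘ 5 ::ₘ 3 ::ₘ 5 ::ₘ 5 ::ₘ 3 ::ₘ 5 ::ₘ 5 ::ₘ 3 ::ₘ M) := h12.move2
  have h14 : Conf 13 3 14 (5 ::ₘ 5 ::ₘ 3 ::ₘ 5 ::ₘ 5 ::ₘ 3 ::ₘ 5 ::ₘ 15 ::ₘ 3 ::ₘ 5 ::ₘ 3 ::ₘ 5 ::ₘ 15 ::ₘ 3 ::ₘ 5 ::ₘ 3 ::ₘ 5 ::ₘ 5 ::ₘ 3 ::ₘ 5 ::ₘ 5 ::ₘ 3 ::ₘ M) := h13.move1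
  have h15 : Conf 14 3 4 (15 ::ₘ 5 ::ₘ 5 ::ₘ 3 ::ₘ 5 ::ₘ 5 ::ₘ 3 ::ₘ 5 ::ₘ 15 ::ₘ 3 ::ₘ 5 ::ₘ 3 ::ₘ 5 ::ₘ 15 ::ₘ 3 ::ₘ 5 ::ₘ 3 ::ₘ 5 ::ₘ 5 ::ₘ 3 ::ₘ 5 ::ₘ 5 ::ₘ 3 ::ₘ M) := h14.swap.move1
  have h16 : Conf 4 3 5 (15 ::ₘ 15 ::ₘ 5 ::ₘ 5 ::ₘ 3 ::ₘ 5 ::ₘ 5 ::ₘ 3 ::ₘ 5 ::ₘ 15 ::ₘ 3 ::ₘ 5 ::ₘ 3 ::ₘ 5 ::ₘ 15 ::ₘ 3 ::ₘ 5 ::ₘ 3 ::ₘ 5 ::ₘ 5 ::ₘ 3 ::ₘ 5 ::ₘ 5 ::ₘ 3 ::ₘ M) := h15.rot.move1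
  refine (h16.swap.rot.swap).congr ?_
  intro j
  simp only [Multiset.count_add, Multiset.count_cons, Multiset.replicate_succ,
    Multiset.replicate_zero, Multiset.count_zero]
  omega

theorem Conf.blk12 {M : Multiset ℕ} (h : Conf 5 3 4 M) : Conf 5 3 4 (M +
    Multiset.replicate 2 16 + Multiset.replicate 4 3 + Multiset.replicate 8 5) := by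
  have h1 : Conf 7 4 5 (5 ::ₘ 3 ::ₘ M) := h.move2
  have h2 : Conf 8 3 6 (5 ::ₘ 5 ::ₘ 3 ::ₘ M) := h1.move1
  have h3 : Conf 10 4 7 (5 ::ₘ 3 ::ₘ 5 ::ₘ 5 ::ₘ 3 ::ₘ M) := h2.move2
  have h4 : Conf 11 3 8 (5 ::ₘ 5 ::ₘ 3 ::ₘ 5 ::ₘ 5 ::ₘ 3 ::ₘ M) := h3.move1
  have h5 : Conf 10 4 12 (5 ::ₘ 3 ::ₘ 5 ::ₘ 5 ::ₘ 3 ::ₘ 5 ::ₘ 5 ::ₘ 3 ::ₘ M) := h4.swap.rot.swap.move2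
  have h6 : Conf 11 3 13 (5 ::ₘ 5 ::ₘ 3 ::ₘ 5 ::ₘ 5 ::ₘ 3 ::ₘ 5 ::ₘ 5 ::ₘ 3 ::ₘ M) := h5.move1
  have h7 : Conf 13 4 14 (5 ::ₘ 3 ::ₘ 5 ::ₘ 5 ::ₘ 3 ::ₘ 5 ::ₘ 5 ::ₘ 3 ::ₘ 5 ::ₘ 5 ::ₘ 3 ::ₘ M) := h6.move2
  have h8 : Conf 14 3 15 (5 ::ₘ 5 ::ₘ 3 ::ₘ 5 ::ₘ 5 ::ₘ 3 ::ₘ 5 ::ₘ 5 ::ₘ 3 ::ₘ 5 ::ₘ 5 ::ₘ 3 ::ₘ M) := h7.move1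
  have h9 : Conf 15 3 4 (16 ::ₘ 5 ::ₘ 5 ::ₘ 3 ::ₘ 5 ::ₘ 5 ::ₘ 3 ::ₘ 5 ::ₘ 5 ::ₘ 3 ::ₘ 5 ::ₘ 5 ::ₘ 3 ::ₘ M) := h8.swap.move1
  have h10 : Conf 4 3 5 (16 ::ₘ 16 ::ₘ 5 ::ₘ 5 ::ₘ 3 ::ₘ 5 ::ₘ 5 ::ₘ 3 ::ₘ 5 ::ₘ 5 ::ₘ 3 ::ₘ 5 ::ₘ 5 ::ₘ 3 ::ₘ M) := h9.rot.move1
  refine (h10.swap.rot.swap).congr ?_
  intro j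
  simp only [Multiset.count_add, Multiset.count_cons, Multiset.replicate_succ,
    Multiset.replicate_zero, Multiset.count_zero]
  omega

theorem Conf.blk13 {M : Multiset ℕ} (h : Conf 5 3 4 M) : Conf 5 3 4 (M +
    Multiset.replicate 4 17 + Multiset.replicate 9 3 + Multiset.replicate 17 5) := by
  have h1 : Conf 6 3 4 (5 ::ₘ M) := h.swap.move1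
  have h2 : Conf 7 3 4 (5 ::ₘ 5 ::ₘ M) := h1.swap.move1
  have h3 : Conf 9 4 5 (5 ::ₘ 3 ::ₘ 5 ::ₘ 5 ::ₘ M) := h2.move2
  have h4 : Conf 10 3 6 (5 ::ₘ 5 ::ₘ 3 ::ₘ 5 ::ₘ 5 ::ₘ M) := h3.move1
  have h5 : Conf 12 4 7 (5 ::ₘ 3 ::ₘ 5 ::ₘ 5 ::ₘ 3 ::ₘ 5 ::ₘ 5 ::ₘ M) := h4.move2
  have h6 : Conf 13 3 8 (5 ::ₘ 5 ::ₘ 3 ::ₘ 5 ::ₘ 5 ::ₘ 3 ::ₘ 5 ::ₘ 5 ::ₘ M) := h5.move1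
  have h7 : Conf 10 4 14 (5 ::ₘ 3 ::ₘ 5 ::ₘ 5 ::ₘ 3 ::ₘ 5 ::ₘ 5 ::ₘ 3 ::ₘ 5 ::ₘ 5 ::ₘ M) := h6.swap.rot.swap.move2
  have h8 : Conf 11 3 15 (5 ::ₘ 5 ::ₘ 3 ::ₘ 5 ::ₘ 5 ::ₘ 3 ::ₘ 5 ::ₘ 5 ::ₘ 3 ::ₘ 5 ::ₘ 5 ::ₘ M) := h7.move1
  have h9 : Conf 13 4 16 (5 ::ₘ 3 ::ₘ 5 ::ₘ 5 ::ₘ 3 ::ₘ 5 ::ₘ 5 ::ₘ 3 ::ₘ 5 ::ₘ 5 ::ₘ 3 ::ₘ 5 ::ₘ 5 ::ₘ M) := h8.move2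
  have h10 : Conf 14 3 5 (17 ::ₘ 5 ::ₘ 3 ::ₘ 5 ::ₘ 5 ::ₘ 3 ::ₘ 5 ::ₘ 5 ::ₘ 3 ::ₘ 5 ::ₘ 5 ::ₘ 3 ::ₘ 5 ::ₘ 5 ::ₘ M) := h9.swap.move1
  have h11 : Conf 7 4 15 (5 ::ₘ 3 ::ₘ 17 ::ₘ 5 ::ₘ 3 ::ₘ 5 ::ₘ 5 ::ₘ 3 ::ₘ 5 ::ₘ 5 ::ₘ 3 ::ₘ 5 ::ₘ 5 ::ₘ 3 ::ₘ 5 ::ₘ 5 ::ₘ M) := h10.swap.rot.swap.move2
  have h12 : Conf 9 4 5 (17 ::ₘ 3 ::ₘ 5 ::ₘ 3 ::ₘ 17 ::ₘ 5 ::ₘ 3 ::ₘ 5 ::ₘ 5 ::ₘ 3 ::ₘ 5 ::ₘ 5 ::ₘ 3 ::ₘ 5 ::ₘ 5 ::ₘ 3 ::ₘ 5 ::ₘ 5 ::ₘ M) := h11.swap.move2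
  have h13 : Conf 10 3 6 (5 ::ₘ 17 ::ₘ 3 ::ₘ 5 ::ₘ 3 ::ₘ 17 ::ₘ 5 ::ₘ 3 ::ₘ 5 ::ₘ 5 ::ₘ 3 ::ₘ 5 ::ₘ 5 ::ₘ 3 ::ₘ 5 ::ₘ 5 ::ₘ 3 ::ₘ 5 ::ₘ 5 ::ₘ M) := h12.move1
  have h14 : Conf 8 4 11 (5 ::ₘ 3 ::ₘ 5 ::ₘ 17 ::ₘ 3 ::ₘ 5 ::ₘ 3 ::ₘ 17 ::ₘ 5 ::ₘ 3 ::ₘ 5 ::ₘ 5 ::ₘ 3 ::ₘ 5 ::ₘ 5 ::ₘ 3 ::ₘ 5 ::ₘ 5 ::ₘ 3 ::ₘ 5 ::ₘ 5 ::ₘ M) := h13.swap.rot.swap.move2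
  have h15 : Conf 9 3 12 (5 ::ₘ 5 ::ₘ 3 ::ₘ 5 ::ₘ 17 ::ₘ 3 ::ₘ 5 ::ₘ 3 ::ₘ 17 ::ₘ 5 ::ₘ 3 ::ₘ 5 ::ₘ 5 ::ₘ 3 ::ₘ 5 ::ₘ 5 ::ₘ 3 ::ₘ 5 ::ₘ 5 ::ₘ 3 ::ₘ 5 ::ₘ 5 ::ₘ M) := h14.move1
  have h16 : Conf 11 4 13 (5 ::ₘ 3 ::ₘ 5 ::ₘ 5 ::ₘ 3 ::ₘ 5 ::ₘ 17 ::ₘ 3 ::ₘ 5 ::ₘ 3 ::ₘ 17 ::ₘ 5 ::ₘ 3 ::ₘ 5 ::ₘ 5 ::ₘ 3 ::ₘ 5 ::ₘ 5 ::ₘ 3 ::ₘ 5 ::ₘ 5 ::ₘ 3 ::ₘ 5 ::ₘ 5 ::ₘ M) := h15.move2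
  have h17 : Conf 12 3 14 (5 ::ₘ 5 ::ₘ 3 ::ₘ 5 ::ₘ 5 ::ₘ 3 ::ₘ 5 ::ₘ 17 ::ₘ 3 ::ₘ 5 ::ₘ 3 ::ₘ 17 ::ₘ 5 ::ₘ 3 ::ₘ 5 ::ₘ 5 ::ₘ 3 ::ₘ 5 ::ₘ 5 ::ₘ 3 ::ₘ 5 ::ₘ 5 ::ₘ 3 ::ₘ 5 ::ₘ 5 ::ₘ M) := h16.move1
  have h18 : Conf 14 4 15 (5 ::ₘ 3 ::ₘ 5 ::ₘ 5 ::ₘ 3 ::ₘ 5 ::ₘ 5 ::ₘ 3 ::ₘ 5 ::ₘ 17 ::ₘ 3 ::ₘ 5 ::ₘ 3 ::ₘ 17 ::ₘ 5 ::ₘ 3 ::ₘ 5 ::ₘ 5 ::ₘ 3 ::ₘ 5 ::ₘ 5 ::ₘ 3 ::ₘ 5 ::ₘ 5 ::ₘ 3 ::ₘ 5 ::ₘ 5 ::ₘ M) := h17.move2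
  have h19 : Conf 15 3 16 (5 ::ₘ 5 ::ₘ 3 ::ₘ 5 ::ₘ 5 ::ₘ 3 ::ₘ 5 ::ₘ 5 ::ₘ 3 ::ₘ 5 ::ₘ 17 ::ₘ 3 ::ₘ 5 ::ₘ 3 ::ₘ 17 ::ₘ 5 ::ₘ 3 ::ₘ 5 ::ₘ 5 ::ₘ 3 ::ₘ 5 ::ₘ 5 ::ₘ 3 ::ₘ 5 ::ₘ 5 ::ₘ 3 ::ₘ 5 ::ₘ 5 ::ₘ M) := h18.move1
  have h20 : Conf 16 3 4 (17 ::ₘ 5 ::ₘ 5 ::ₘ 3 ::ₘ 5 ::ₘ 5 ::ₘ 3 ::ₘ 5 ::ₘ 5 ::ₘ 3 ::ₘ 5 ::ₘ 17 ::ₘ 3 ::ₘ 5 ::ₘ 3 ::ₘ 17 ::ₘ 5 ::ₘ 3 ::ₘ 5 ::ₘ 5 ::ₘ 3 ::ₘ 5 ::ₘ 5 ::ₘ 3 ::ₘ 5 ::ₘ 5 ::ₘ 3 ::ₘ 5 ::ₘ 5 ::ₘ M) := h19.swap.move1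
  have h21 : Conf 4 3 5 (17 ::ₘ 17 ::ₘ 5 ::ₘ 5 ::ₘ 3 ::ₘ 5 ::ₘ 5 ::ₘ 3 ::ₘ 5 ::ₘ 5 ::ₘ 3 ::ₘ 5 ::ₘ 17 ::ₘ 3 ::ₘ 5 ::ₘ 3 ::ₘ 17 ::ₘ 5 ::ₘ 3 ::ₘ 5 ::ₘ 5 ::ₘ 3 ::ₘ 5 ::ₘ 5 ::ₘ 3 ::ₘ 5 ::ₘ 5 ::ₘ 3 ::ₘ 5 ::ₘ 5 ::ₘ M) := h20.rot.move1
  refine (h21.swap.rot.swap).congr ?_
  intro j
  simp only [Multiset.count_add, Multiset.count_cons, Multiset.replicate_succ,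
    Multiset.replicate_zero, Multiset.count_zero]
  omega

end Pool.Agent.Helper79.HX
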