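import Pool.Agent.Helper79.HX.Win

/-!
# Long ears: three large faces around a junction
-/

namespace Pool.Agent.Helper79.HX

open Finset

theorem Conf2.symm {z b v x : ℕ} {M : Multiset ℕ} (h : Conf2 z b v x M) :
    Conf2 v b z x M := by
  obtain ⟨T, a, b, c, d, hS, hab, hac, had, hbc, hbd, hcd, hT, hT2, ha, hb, hc, hd, hM⟩ := h
  have e1 : ({c, b, a} : Finset ℕ) = {a, b, c} := by
    ext v; simp only [Finset.mem_insert, Finset.mem_singleton]; tauto
  have e2 : ({c, a, d} : Finset ℕ) = {a, c, d} := by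
    ext v; simp only [Finset.mem_insert, Finset.mem_singleton]; tauto
  have e3 : ({c, b, a, d} : Finset ℕ) = {a, b, c, d} := by
    ext v; simp only [Finset.mem_insert, Finset.mem_singleton]; tauto
  exact ⟨T, c, b, a, d, hS, hbc.symm, hac.symm, hcd, hab.symm, hbd, had, by rw [e1]; exact hT,
    by rw [e2]; exact hT2, hc, hb, ha, hd, by rw [e3]; exact hM⟩

/-- forget the first marked triangle -/
theorem Conf2.forget {z b v x : ℕ} {M : Multiset ℕ} (h : Conf2 z b v x M) :
    Conf z v x (b ::ₘ M) := by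
  obtain ⟨T, a, b, c, d, hS, hab, hac, had, hbc, hbd, hcd, hT, hT2, ha, hb, hc, hd, hM⟩ := h
  obtain ⟨va, vb, vc⟩ := mem_of_tri hT
  refine ⟨T, a, c, d, hS, hac, had, hcd, hT2, ha, hc, hd, ?_⟩
  have h1 : verts T \ {a, c, d} = insert b (verts T \ {a, b, c, d}) := by
    ext v
    simp only [Finset.mem_sdiff, Finset.mem_insert, Finset.mem_singleton, not_or]
    constructor
    · rintro ⟨h1, h2, h3, h4⟩
      by_cases hvb : v = b
      · exact Or.inl hvb
      · exact Or.inr ⟨h1, h2, hvb, h3, h4⟩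
    · rintro (rfl | ⟨h1, h2, h3, h4, h5⟩)
      · exact ⟨vb, hab.symm, hbc, hbd⟩
      · exact ⟨h1, h2, h4, h5⟩
  rw [h1, Finset.insert_val_of_notMem (by simp), Multiset.map_cons, hb, hM]

/-- complete the second vertex with an ear on the side of the first vertex -/
theorem Conf2.move2 {z b v x : ℕ} {M : Multiset ℕ} (h : Conf2 z b v x M) :
    Conf2 (z + 2) 4 (v + 1) x ((b + 2) ::ₘ 3 ::ₘ M) := by
  obtain ⟨T, a, b, c, d, hS, hab, hac, had, hbc, hbd, hcd, hT, hT2, ha, hb, hc, hd, hM⟩ := h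
  obtain ⟨w, hw⟩ := exists_fresh T
  obtain ⟨wa, wb, wc⟩ := w_ne hT hw
  obtain ⟨va, vb, vc⟩ := mem_of_tri hT
  obtain ⟨-, -, vd⟩ := mem_of_tri hT2
  have wd : w ≠ d := fun h => hw (h ▸ vd)
  set T1 := stack T a b c w with hT1
  have hS1 : IsSphere T1 := stack_isSphere hab hac hbc hT hw hS
  have hf1 : ({a, b, w} : Finset ℕ) ∈ T1 := mem_stack.2 (by simp)
  have hV1 : verts T1 = insert w (verts T) := verts_stack hT
  obtain ⟨s, hs⟩ := exists_fresh T1
  obtain ⟨sa, sb, sw⟩ := w_ne hf1 hs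
  have hsT : s ∉ verts T := fun h => hs (by rw [hV1]; exact Finset.mem_insert_of_mem h)
  have sc : s ≠ c := fun h => hsT (h ▸ vc)
  have sd : s ≠ d := fun h => hsT (h ▸ vd)
  have hd1 := deg_stack hab hac hbc hT hw
  have hd2 := deg_stack hab wa.symm wb.symm hf1 hs
  refine ⟨stack T1 a b w s, a, w, c, d, stack_isSphere hab wa.symm wb.symm hf1 hs hS1, wa.symm,
    hac, had, wc, wd, hcd, ?_, ?_, ?_, ?_, ?_, ?_, ?_⟩
  · rw [mem_stack]; left
    refine ⟨?_, ?_⟩
    · intro h
      have : c ∈ ({a, b, w} : Finset ℕ) := h ▸ (by simp)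
      simp [hac.symm, hbc.symm, wc.symm] at this
    · rw [hT1, mem_stack]; right; right; left; rw [Finset.pair_comm]
  · rw [mem_stack]; left
    refine ⟨?_, ?_⟩
    · intro h
      have : c ∈ ({a, b, w} : Finset ℕ) := h ▸ (by simp)
      simp [hac.symm, hbc.symm, wc.symm] at this
    · rw [hT1, mem_stack]; left
      refine ⟨?_, hT2⟩
      intro h
      have : d ∈ ({a, b, c} : Finset ℕ) := h ▸ (by simp)
      simp [had.symm, hbd.symm, hcd.symm] at this
  · rw [hd2, hT1, hd1]; simp [sa.symm, wa.symm, ha]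
  · rw [hd2, hT1, hd1]; simp [sw.symm]
  · rw [hd2, hT1, hd1]; simp [sc.symm, hac.symm, hbc.symm, wc.symm, hc]
  · rw [hd2, hT1, hd1]; simp [sd.symm, had.symm, hbd.symm, hcd.symm, wd.symm, hd]
  · have h1 : verts (stack T1 a b w s) \ {a, w, c, d} =
        insert b (insert s (verts T \ {a, b, c, d})) := by
      rw [verts_stack hf1, hV1]
      ext v
      simp only [Finset.mem_sdiff, Finset.mem_insert, Finset.mem_singleton, not_or]
      constructor
      · rintro ⟨h1 | h1 | h1, h2, h3, h4, h5⟩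
        · exact Or.inr (Or.inl h1)
        · exact absurd h1 h3
        · by_cases hvb : v = b
          · exact Or.inl hvb
          · exact Or.inr (Or.inr ⟨h1, h2, hvb, h4, h5⟩)
      · rintro (rfl | rfl | ⟨h1, h2, h3, h4, h5⟩)
        · exact ⟨Or.inr (Or.inr vb), hab.symm, wb.symm, hbc, hbd⟩
        · exact ⟨Or.inl rfl, sa, sw, sc, sd⟩
        · exact ⟨Or.inr (Or.inr h1), h2, fun h => hw (h ▸ h1), h4, h5⟩
    rw [h1, Finset.insert_val_of_notMem (by simp [sb.symm]), Multiset.map_cons,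
      Finset.insert_val_of_notMem (by simp [hsT]), Multiset.map_cons]
    congr 1
    · rw [hd2, hT1, hd1]; simp [sb.symm, wb.symm, hb]
    · congr 1
      · rw [hd2]; simp
      · rw [← hM]
        apply Multiset.map_congr rfl
        intro v hv
        have hv' : v ∈ verts T \ {a, b, c, d} := hv
        simp only [Finset.mem_sdiff, Finset.mem_insert, Finset.mem_singleton, not_or] at hv'
        obtain ⟨h1, h2, h3, h4, h5⟩ := hv'
        have hvw : v ≠ w := fun h => hw (h ▸ h1)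
        have hvs : v ≠ s := fun h => hsT (h ▸ h1)
        rw [hd2, hT1, hd1]
        simp [hvw, hvs, h2, h3, h4]

theorem Conf2.congr {z b v x : ℕ} {M M' : Multiset ℕ} (h : Conf2 z b v x M)
    (e : ∀ k, M.count k = M'.count k) : Conf2 z b v x M' := by
  have : M = M' := Multiset.ext.2 e
  exact this ▸ h

theorem Conf2.quads {z v x : ℕ} {M : Multiset ℕ} (h : Conf2 z 3 v x M) (j : ℕ) :
    Conf2 (z + j) 3 (v + j) x (M + Multiset.replicate j 4) := by
  induction j with
  | zero => simpa using h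
  | succ j ih =>
    rw [Multiset.replicate_succ, Multiset.add_cons]
    exact ih.move

theorem Conf2.tris {z v x : ℕ} {M : Multiset ℕ} (h : Conf2 z 3 v x M) (j : ℕ) :
    Conf2 (z + 3 * j) 3 (v + 2 * j) x (M + Multiset.replicate j 3 + Multiset.replicate (2 * j) 5) := by
  induction j with
  | zero => simpa using h
  | succ j ih =>
    have h1 : Conf2 (z + 3 * j + 2 + 1) 3 (v + 2 * j + 1 + 1) x _ := ih.move2.move
    have e1 : z + 3 * j + 2 + 1 = z + 3 * (j + 1) := by ring
    have e2 : v + 2 * j + 1 + 1 = v + 2 * (j + 1) := by ring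
    rw [e1, e2] at h1
    refine h1.congr ?_
    intro k
    have e3 : 2 * (j + 1) = 2 * j + 1 + 1 := by ring
    rw [e3]
    simp only [Multiset.count_add, Multiset.count_cons, Multiset.replicate_succ, Nat.reduceAdd]
    omega

theorem Conf2.tris2 {z v x : ℕ} {M : Multiset ℕ} (h : Conf2 z 3 v x M) (j : ℕ) :
    Conf2 (z + 2 * j) 3 (v + 3 * j) x (M + Multiset.replicate j 3 + Multiset.replicate (2 * j) 5) :=
  (h.symm.tris j).symm

/-- A long ear: complete the vertex `z`; between `z` and the new vertex there are `a + b`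
triangles and `q` quadrangles. -/
theorem Conf.longEar {z x : ℕ} {M : Multiset ℕ} (h : Conf z 3 x M) (a b q : ℕ) :
    Conf (x + 2) 3 (5 + 2 * a + 3 * b + q) ((z + 3 + 3 * a + 2 * b + q) ::ₘ (M +
      Multiset.replicate (1 + a + b) 3 + Multiset.replicate (1 + 2 * a + 2 * b) 5 +
      Multiset.replicate q 4)) := by
  have h1 : Conf2 (z + 2) 3 4 (x + 1) (5 ::ₘ M) := h.split.move
  have h2 := (((h1.tris a).tris2 b).quads q).forget
  have h3 := h2.rot.move1.flip
  have e1 : x + 1 + 1 = x + 2 := by ring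
  have e2 : 4 + 2 * a + 3 * b + q + 1 = 5 + 2 * a + 3 * b + q := by ring
  have e3 : z + 2 + 3 * a + 2 * b + q + 1 = z + 3 + 3 * a + 2 * b + q := by ring
  rw [e1, e2, e3] at h3
  refine h3.congr ?_
  intro k
  simp only [Multiset.count_add, Multiset.count_cons, Multiset.replicate_add,
    Multiset.replicate_one, Multiset.count_singleton]
  omega

/-- three large faces around a junction -/
theorem win_J (p a1 b1 q1 a2 b2 q2 a3 b3 q3 g : ℕ) :
    Win (p + 3 * a1 + 2 * b1 + q1 + 3 + 3 * a2 + 2 * b2 + q2)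
      {2 * a1 + 3 * b1 + q1 + 3 + 3 * a3 + 2 * b3 + q3 + g,
        2 + 2 * a2 + 3 * b2 + q2 + 2 * a3 + 3 * b3 + q3}
      (1 + a1 + b1 + a2 + b2 + a3 + b3) (q1 + q2 + q3) := by
  intro z M hz
  have h1 := (((hz.grow p).tris a1).tris2 b1).quads q1
  have h2 := (((h1.longEar a2 b2 q2).tris a3).tris2 b3).quads q3
  have h3 := (h2.swap.move1.grow g).fin
  have e1 : z + p + 3 * a1 + 2 * b1 + q1 + 3 + 3 * a2 + 2 * b2 + q2 =
    z + (p + 3 * a1 + 2 * b1 + q1 + 3 + 3 * a2 + 2 * b2 + q2) := by ring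
  have e2 : 4 + 2 * a1 + 3 * b1 + q1 + 2 + 3 * a3 + 2 * b3 + q3 + 1 + g =
    2 * a1 + 3 * b1 + q1 + 3 + 3 * a3 + 2 * b3 + q3 + g + 4 := by ring
  have e3 : 5 + 2 * a2 + 3 * b2 + q2 + 2 * a3 + 3 * b3 + q3 + 1 =
    2 + 2 * a2 + 3 * b2 + q2 + 2 * a3 + 3 * b3 + q3 + 4 := by ring
  rw [e1, e2, e3] at h3
  refine ⟨p + 2 * a1 + 2 * b1 + (1 + 2 * a2 + 2 * b2) + 2 * a3 + 2 * b3 + g, h3.congr ?_⟩
  intro k
  simp only [Multiset.count_add, Multiset.count_cons, Multiset.count_singleton,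
    Multiset.insert_eq_cons, Multiset.map_cons, Multiset.map_singleton, Multiset.replicate_add,
    Multiset.replicate_one]
  omega

/-- a hub which needs two more, completed with an ear (first kind) -/
theorem win_R {H' : ℕ} {C : Multiset ℕ} {A' B' : ℕ} (a b q : ℕ) (h : Win H' C A' B') :
    Win 2 ((H' + 4 + 3 * a + 2 * b + q) ::ₘ (2 * a + 3 * b + q + 2) ::ₘ C) (A' + 1 + a + b)
      (B' + q) := by
  intro z M hz
  have h1 : Conf 7 3 5 (5 ::ₘ (z + 2) ::ₘ 3 ::ₘ M) := hz.flip.swap.move2.move1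
  have h2 : Conf (7 + 3 * a + 2 * b + q + 1) 3 4 _ :=
    (((h1.tris a).tris2 b).quads q).swap.move1
  obtain ⟨p', hp'⟩ := h _ _ h2
  have e1 : 7 + 3 * a + 2 * b + q + 1 + H' = H' + 4 + 3 * a + 2 * b + q + 4 := by ring
  have e2 : 5 + 2 * a + 3 * b + q + 1 = 2 * a + 3 * b + q + 2 + 4 := by ring
  rw [e1, e2] at hp'
  refine ⟨1 + 2 * a + 2 * b + p', hp'.congr ?_⟩
  intro k
  simp only [Multiset.count_add, Multiset.count_cons, Multiset.count_singleton,
    Multiset.map_cons, Multiset.replicate_add, Multiset.replicate_one]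
  omega

/-- a hub which needs two more, completed with an ear (second kind) -/
theorem win_R' {H' : ℕ} {C : Multiset ℕ} {A' B' : ℕ} (a b q : ℕ) (h : Win H' C A' B') :
    Win 2 ((H' + 3 + 3 * a + 2 * b + q) ::ₘ (2 * a + 3 * b + q + 3) ::ₘ C) (A' + 1 + a + b)
      (B' + q) := by
  intro z M hz
  have h1 : Conf 6 3 6 (5 ::ₘ (z + 2) ::ₘ 3 ::ₘ M) := hz.rot.move2.move1.flip
  have h2 : Conf (6 + 3 * a + 2 * b + q + 1) 3 4 _ :=
    (((h1.tris a).tris2 b).quads q).swap.move1
  obtain ⟨p', hp'⟩ := h _ _ h2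
  have e1 : 6 + 3 * a + 2 * b + q + 1 + H' = H' + 3 + 3 * a + 2 * b + q + 4 := by ring
  have e2 : 6 + 2 * a + 3 * b + q + 1 = 2 * a + 3 * b + q + 3 + 4 := by ring
  rw [e1, e2] at hp'
  refine ⟨1 + 2 * a + 2 * b + p', hp'.congr ?_⟩
  intro k
  simp only [Multiset.count_add, Multiset.count_cons, Multiset.count_singleton,
    Multiset.map_cons, Multiset.replicate_add, Multiset.replicate_one]
  omega

end Pool.Agent.Helper79.HX
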