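import Pool.Agent.Helper79.HY.Ear
import Pool.Agent.Helper79.HX.Big

/-!
# Filling a face exactly; three large faces
-/

namespace Pool.Agent.Helper79.HX

open Finset

/-- Fill a face of size `x` exactly; `y` is the partner, `M` bounds the other faces. -/
theorem fill {x y A B D M : ℕ} (hx : 3 ≤ x) (hxA : x + 2 ≤ 3 * A + B) (hU : M + x + 2 ≤ D)
    (hP : 2 * x + 14 ≤ 3 * y) (hP2 : x + 1 ≤ y + A) (hS : y + 2 ≤ D) (hM : 2 ≤ M)
    (h5 : 3 * x + 3 * y + 2 * M + 3 ≤ 5 * D + B) (h6 : x + y + 3 ≤ D + 2 * A + B) :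
    ∃ a b q, 2 * a + 3 * b + q + 1 = x ∧ q ≤ B ∧ a + b ≤ A ∧ M + x + a ≤ D ∧ y + b ≤ D ∧
      3 * a + 2 * b + q + 2 ≤ y := by
  by_cases c1 : x ≤ B + 1 ∧ x + 1 ≤ y
  · exact ⟨0, 0, x - 1, by omega, by omega, by omega, by omega, by omega, by omega⟩
  by_cases c2 : y ≤ x ∧ x - 1 - 3 * (x + 1 - y) ≤ B
  · exact ⟨0, x + 1 - y, x - 1 - 3 * (x + 1 - y), by omega, by omega, by omega, by omega,
      by omega, by omega⟩
  have hL : B + 1 ≤ x - 1 := by omega
  by_cases c3 : y + (x + 1 - B) / 3 ≤ D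
  · by_cases c4 : 3 * ((x + 1 - B) / 3) ≤ x - 1
    · exact ⟨0, (x + 1 - B) / 3, x - 1 - 3 * ((x + 1 - B) / 3), by omega, by omega, by omega,
        by omega, by omega, by omega⟩
    · by_cases c5 : (x - 1) % 3 = 2
      · exact ⟨1, (x - 3) / 3, 0, by omega, by omega, by omega, by omega, by omega, by omega⟩
      · exact ⟨2, (x - 5) / 3, 0, by omega, by omega, by omega, by omega, by omega, by omega⟩
  · by_cases c5 : (x - 1 - B - 3 * (D - y)) % 2 = 0
    · exact ⟨(x - 1 - B - 3 * (D - y)) / 2, D - y, B, by omega, by omega, by omega, by omega,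
        by omega, by omega⟩
    · exact ⟨(x - 1 - B - 3 * (D - y - 1)) / 2, D - y - 1, B, by omega, by omega, by omega,
        by omega, by omega, by omega⟩

/-- all partners are very large -/
theorem nearpour {H A B c1 c2 : ℕ} {C : Multiset ℕ} (hA : 6 ≤ A) (hC : ∀ c ∈ C, 3 ≤ c)
    (hH : 1 ≤ H) (h1 : 3 * A + B ≤ c1 + 1) (h2 : 3 * A + B ≤ c2 + 1) :
    Win H (c1 ::ₘ c2 ::ₘ C) A B := by
  have hC2 : ∀ c ∈ c2 ::ₘ C, 3 ≤ c := by
    intro c hc
    rcases Multiset.mem_cons.1 hc with h | h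
    · omega
    · exact hC c h
  rcases Nat.lt_or_ge H (2 * A + B + 6) with d | d
  swap
  · exact win_pour hC2 (by omega) (by omega) (by omega) (fun _ => by omega)
  rcases Nat.lt_or_ge A ((H - 1) / 3) with e | e
  · have h5 : Win (c1 - 1 - 2 * A - (H - 1 - 3 * A)) (c2 ::ₘ C) 0 (B - (H - 1 - 3 * A)) :=
      win_pour hC (by omega) (by omega) (by omega) (fun _ => by omega)
    exact (win_S 0 A 0 (H - 1 - 3 * A) h5).congr (by omega) (by congr 1; omega) (by omega)
      (by omega)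
  · have h5 : Win (c1 - 1 - 2 * ((H - 1) / 3)) (c2 ::ₘ C) (A - (H - 1) / 3) B :=
      win_pour hC (by omega) (by omega) (by omega) (fun _ => by omega)
    exact (win_S ((H - 1) % 3) ((H - 1) / 3) 0 0 h5).congr (by omega) (by congr 1; omega)
      (by omega) (by omega)

theorem Jdist {H c1 a b q t1 q1 : ℕ} (h1 : 2 * t1 + q1 + 3 ≤ H) (h2 : 2 * t1 + q1 + 3 ≤ c1)
    (h3 : 5 * t1 + 2 * q1 + 9 + 3 * a + 2 * b + q ≤ H + c1) :
    Win H {c1, 2 + 2 * a + 3 * b + q} (1 + t1 + a + b) (q1 + q) := by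
  have key : ∀ p a1 b1 a2 b2 q2 : ℕ, a1 + b1 = t1 → a2 ≤ a → b2 ≤ b → q2 ≤ q →
      p + 3 * a1 + 2 * b1 + q1 + 3 + 3 * a2 + 2 * b2 + q2 = H →
      2 * a1 + 3 * b1 + q1 + 3 + 3 * (a - a2) + 2 * (b - b2) + (q - q2) ≤ c1 →
      Win H {c1, 2 + 2 * a + 3 * b + q} (1 + t1 + a + b) (q1 + q) := by
    intro p a1 b1 a2 b2 q2 k1 k2 k3 k4 k5 k6
    refine (win_J p a1 b1 q1 a2 b2 q2 (a - a2) (b - b2) (q - q2)
      (c1 - (2 * a1 + 3 * b1 + q1 + 3 + 3 * (a - a2) + 2 * (b - b2) + (q - q2)))).congr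
      k5 ?_ ?_ ?_
    · rw [Multiset.insert_eq_cons, Multiset.insert_eq_cons]
      congr 1
      · omega
      · congr 1; omega
    · omega
    · omega
  rcases Nat.lt_or_ge (H - (2 * t1 + q1 + 3)) (3 * a) with d1 | d1
  · exact key ((H - (2 * t1 + q1 + 3)) % 3) 0 t1 ((H - (2 * t1 + q1 + 3)) / 3) 0 0 (by omega)
      (by omega) (by omega) (by omega) (by omega) (by omega)
  rcases Nat.lt_or_ge (H - (2 * t1 + q1 + 3)) (3 * a + 2 * b) with d2 | d2
  · exact key ((H - (2 * t1 + q1 + 3) - 3 * a) % 2) 0 t1 a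
      ((H - (2 * t1 + q1 + 3) - 3 * a) / 2) 0 (by omega)
      (by omega) (by omega) (by omega) (by omega) (by omega)
  rcases Nat.lt_or_ge (H - (2 * t1 + q1 + 3)) (3 * a + 2 * b + q) with d3 | d3
  · exact key 0 0 t1 a b (H - (2 * t1 + q1 + 3) - 3 * a - 2 * b) (by omega)
      (by omega) (by omega) (by omega) (by omega) (by omega)
  rcases Nat.lt_or_ge (H - (2 * t1 + q1 + 3)) (3 * a + 2 * b + q + t1) with d4 | d4
  · exact key 0 (H - (2 * t1 + q1 + 3) - 3 * a - 2 * b - q)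
      (t1 - (H - (2 * t1 + q1 + 3) - 3 * a - 2 * b - q)) a b q (by omega)
      (by omega) (by omega) (by omega) (by omega) (by omega)
  · exact key (H - (2 * t1 + q1 + 3) - 3 * a - 2 * b - q - t1) t1 0 a b q (by omega)
      (by omega) (by omega) (by omega) (by omega) (by omega)

theorem base2 {H A B c1 c2 : ℕ} (hA : 6 ≤ A) (h3 : 3 ≤ c2) (h21 : c2 ≤ c1) (hH : 1 ≤ H)
    (hW : 5 * A + 2 * B + 24 ≤ H + c1 + c2) (h1 : 2 * A + B + 3 ≤ c1 + c2)
    (h2 : 2 * A + B + 3 ≤ H + c2) : Win H {c1, c2} A B := by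
  rw [Multiset.insert_eq_cons]
  have hc2' : ∀ c ∈ ({c2} : Multiset ℕ), 3 ≤ c := by simpa using h3
  have h0 : ∀ c ∈ (0 : Multiset ℕ), 3 ≤ c := by simp
  rcases Nat.lt_or_ge H (3 * A + B + 3) with d1 | d1
  swap
  · apply win_dom
    · intro c hc
      rw [Multiset.mem_cons, Multiset.mem_singleton] at hc
      omega
    · simp only [Multiset.card_cons, Multiset.card_singleton]; omega
    · simp only [Multiset.card_cons, Multiset.card_singleton, Multiset.sum_cons,
        Multiset.sum_singleton]; omega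
  rcases Nat.lt_or_ge c1 (3 * A + B + 3) with d2 | d2
  swap
  · apply win_dom1 hc2' hH
    · simp only [Multiset.card_singleton]; omega
    · simp only [Multiset.card_singleton, Multiset.sum_singleton]; omega
  by_cases hP : 2 * A + B + 1 ≤ H ∧ 2 * A + B + 1 ≤ c1 ∧ 5 * A + 2 * B + 3 ≤ H + c1
  · exact win_pour hc2' (by omega) (by omega) (by omega) (fun _ => by omega)
  rcases Nat.lt_or_ge (c2 + 1) (3 * A + B) with d3 | d3
  swap
  · exact nearpour hA h0 hH (by omega) (by omega)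
  rcases Nat.lt_or_ge H 3 with d4 | d4
  · have h5 : Win (c1 - 1) (c2 ::ₘ 0) A B :=
      win_pour h0 (by omega) (by omega) (by omega) (fun _ => by omega)
    exact (win_S (H - 1) 0 0 0 h5).congr (by omega) (by
      rw [Multiset.cons_zero]; congr 1; omega) (by omega) (by omega)
  obtain ⟨D, hD⟩ : ∃ D, D + (2 * A + B + 3) = H + c1 + c2 :=
    ⟨H + c1 + c2 - (2 * A + B + 3), by omega⟩
  rcases Nat.lt_or_ge H (2 * A + B + 5) with d5 | d5
  swap
  · obtain ⟨a, b, q, e1, e2, e3, e4, e5, e6⟩ := fill (x := c2) (y := H) (A := A) (B := B)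
      (D := D) (M := c1) h3 (by omega) (by omega) (by omega) (by omega) (by omega) (by omega)
      (by omega) (by omega)
    have h5 : Win (H - (3 * a + 2 * b + q + 1)) (c1 ::ₘ 0) (A - a - b) (B - q) :=
      win_pour h0 (by omega) (by omega) (by omega) (fun h => by simp at h)
    exact (win_L a b q h5).congr (by omega) (by
      rw [Multiset.cons_zero, e1]; exact Multiset.pair_comm _ _) (by omega) (by omega)
  rcases Nat.lt_or_ge c1 (2 * A + B + 5) with d6 | d6
  swap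
  · obtain ⟨a, b, q, e1, e2, e3, e4, e5, e6⟩ := fill (x := H) (y := c1) (A := A) (B := B)
      (D := D) (M := c2) d4 (by omega) (by omega) (by omega) (by omega) (by omega) (by omega)
      (by omega) (by omega)
    have h5 : Win (c1 - (3 * a + 2 * b + q + 1)) (c2 ::ₘ 0) (A - a - b) (B - q) :=
      win_pour h0 (by omega) (by omega) (by omega) (fun h => by simp at h)
    exact (win_S 0 b a q h5).congr (by omega) (by
      rw [Multiset.cons_zero]; congr 1; omega) (by omega) (by omega)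
  -- the junction
  have fin : ∀ a b q t1 q1 : ℕ, 2 + 2 * a + 3 * b + q = c2 → 1 + t1 + a + b = A →
      q1 + q = B → 2 * t1 + q1 + 3 ≤ H → 2 * t1 + q1 + 3 ≤ c1 → Win H (c1 ::ₘ {c2}) A B := by
    intro a b q t1 q1 k1 k2 k3 k4 k5
    refine (Jdist (H := H) (c1 := c1) (a := a) (b := b) (q := q) (t1 := t1) (q1 := q1) k4 k5
      (by omega)).congr rfl ?_ k2 k3
    rw [Multiset.insert_eq_cons, k1]
  rcases Nat.lt_or_ge B (c2 - 2) with d7 | d7
  swap
  · exact fin 0 0 (c2 - 2) (A - 1) (B - (c2 - 2)) (by omega) (by omega) (by omega) (by omega)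
      (by omega)
  rcases Nat.lt_or_ge (B + 1) (c2 - 2) with d8 | d8
  swap
  · exact fin 1 0 (B - 1) (A - 2) 1 (by omega) (by omega) (by omega) (by omega) (by omega)
  rcases Nat.lt_or_ge (2 * (A - 1)) (c2 - 2 - B) with d9 | d9
  · exact fin (A - 1 - (c2 - 2 - B - 2 * (A - 1))) (c2 - 2 - B - 2 * (A - 1)) B 0 0 (by omega)
      (by omega) (by omega) (by omega) (by omega)
  · exact fin ((c2 - 2 - B - 3 * ((c2 - 2 - B) % 2)) / 2) ((c2 - 2 - B) % 2) B
      (A - 1 - (c2 - 2 - B - 3 * ((c2 - 2 - B) % 2)) / 2 - (c2 - 2 - B) % 2) 0 (by omega)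
      (by omega) (by omega) (by omega) (by omega)

end Pool.Agent.Helper79.HX
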