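import Pool.Agent.Helper79.HY.Fill

/-!
# The main construction
-/

namespace Pool.Agent.Helper79.HX

open Finset

/-- the sum of the small elements -/
def sm (C : Multiset ℕ) : ℕ := (C.filter (fun c => c ≤ 13)).sum

theorem sm_cons_le (c : ℕ) (C : Multiset ℕ) : sm C ≤ sm (c ::ₘ C) := by
  unfold sm
  by_cases h : c ≤ 13
  · rw [Multiset.filter_cons_of_pos (p := fun c => c ≤ 13) C h, Multiset.sum_cons]; omega
  · rw [Multiset.filter_cons_of_neg (p := fun c => c ≤ 13) C h]

theorem sm_eq {C : Multiset ℕ} (h : ∀ c ∈ C, c ≤ 13) : sm C = C.sum := by
  unfold sm
  rw [Multiset.filter_eq_self.2 h]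

theorem decomp3 (C : Multiset ℕ) (h : 3 ≤ Multiset.card C) : ∃ (M M2 m : ℕ) (C' : Multiset ℕ),
    C = M ::ₘ M2 ::ₘ m ::ₘ C' ∧ m ≤ M2 ∧ M2 ≤ M ∧ (∀ c ∈ C', m ≤ c ∧ c ≤ M2) := by
  obtain ⟨M, m0, C0, rfl, hM, hC0⟩ := decomp C (by omega)
  obtain ⟨M2, m, C', e, h1, h2⟩ := decomp (m0 ::ₘ C0) (by
    simp only [Multiset.card_cons] at h ⊢; omega)
  refine ⟨M, M2, m, C', by rw [e], h1, ?_, h2⟩
  have : M2 ∈ m0 ::ₘ C0 := by rw [e]; simp
  rcases Multiset.mem_cons.1 this with h | h
  · omega
  · exact (hC0 _ h).2

/-- Fill the smallest face by an ear on the largest one. -/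
theorem fillR {m M A D M2 : ℕ} (h3 : 3 ≤ m) (hmM : m ≤ M) (hM : 14 ≤ M) (hm : m + 2 ≤ 3 * A)
    (h1 : M2 + m + 5 ≤ D) (h2 : M + 2 ≤ D) (h5 : 3 * m + 3 * M + 2 * M2 + 20 ≤ 5 * D)
    (h6 : m + M + 1 ≤ D + 2 * A) :
    ∃ s a b, s ≤ 1 ∧ 2 * a + 3 * b + 2 + s = m ∧ a + b + 1 ≤ A ∧ M2 + m + a + 2 ≤ D ∧
      M + b + 1 ≤ D ∧ 3 * a + 2 * b + 5 ≤ M + s := by
  by_cases c1 : M + (m - 2) / 3 + 1 ≤ D
  · by_cases c2 : (m - 2) % 3 = 0
    · exact ⟨0, 0, (m - 2) / 3, by omega, by omega, by omega, by omega, by omega, by omega⟩
    by_cases c3 : (m - 2) % 3 = 1
    · exact ⟨1, 0, (m - 3) / 3, by omega, by omega, by omega, by omega, by omega, by omega⟩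
    · exact ⟨0, 1, (m - 4) / 3, by omega, by omega, by omega, by omega, by omega, by omega⟩
  · by_cases c2 : (m - 2 - 3 * (D - M - 1)) % 2 = 0
    · exact ⟨0, (m - 2 - 3 * (D - M - 1)) / 2, D - M - 1, by omega, by omega, by omega,
        by omega, by omega, by omega⟩
    · exact ⟨1, (m - 3 - 3 * (D - M - 1)) / 2, D - M - 1, by omega, by omega, by omega,
        by omega, by omega, by omega⟩

/-- the slack which is needed for `n` partners -/
def TT (n : ℕ) : ℕ := if n ≤ 2 then 24 else 152

theorem TT_le (n : ℕ) : TT n ≤ 152 := by unfold TT; split_ifs <;> omega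
theorem TT_2 : TT 2 = 24 := by decide
theorem TT_3 {n : ℕ} (h : 3 ≤ n) : TT n = 152 := by unfold TT; rw [if_neg (by omega)]

theorem main5 : ∀ (n H A B : ℕ) (C : Multiset ℕ), Multiset.card C = n → (∀ c ∈ C, 3 ≤ c) →
    1 ≤ H → sm C ≤ 225 → 5 * A + 2 * B + 2 * n + TT n ≤ H + C.sum →
    2 * A + B + 1 + n ≤ C.sum → (∀ c ∈ C, 2 * A + B + 1 + c + n ≤ H + C.sum) →
    Win H C A B := by
  intro n
  induction n using Nat.strong_induction_on with
  | _ n ih =>
    intro H A B C hn h3 hH hsm hW hs hc
    match n, ih, hn, hs, hc, hW with
    | 0, _, hn, hs, hc, hW =>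
      rw [Multiset.card_eq_zero] at hn
      subst hn
      simp at hs
    | 1, _, hn, hs, hc, hW =>
      obtain ⟨y, rfl⟩ := Multiset.card_eq_one.1 hn
      rw [Multiset.sum_singleton] at hs hW
      have h1 := hc y (by simp)
      rw [Multiset.sum_singleton] at h1
      exact win_pour (C := 0) (by simp) (by omega) (by omega) (by omega) (by simp)
    | 2, _, hn, hs, hc, hW =>
      rw [TT_2] at hW
      rcases Nat.lt_or_ge 5 A with hA | hA
      swap
      · exact big 2 H A B C hn h3 hH (Or.inl (by omega)) hs hc
      obtain ⟨c1, c2, C', rfl, h21, -⟩ := decomp C (by omega)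
      simp only [Multiset.card_cons] at hn
      have : Multiset.card C' = 0 := by omega
      rw [Multiset.card_eq_zero] at this
      subst this
      simp only [Multiset.sum_cons, Multiset.sum_zero] at hs hc hW
      have h1 := hc c1 (by simp)
      have h3' := h3 c2 (by simp)
      exact base2 hA h3' h21 hH (by omega) (by omega) (by omega)
    | n + 3, ih, hn, hs, hc, hW =>
      rw [TT_3 (by omega)] at hW
      rcases Nat.lt_or_ge 37 A with hA | hA
      swap
      · exact big (n + 3) H A B C hn h3 hH (Or.inl (by omega)) hs hc
      obtain ⟨M, M2, m, C', rfl, hm, hM, hC'⟩ := decomp3 C (by omega)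
      simp only [Multiset.card_cons] at hn
      have hcard : Multiset.card C' = n := by omega
      have hm3 := h3 m (by simp)
      have hC3 : ∀ x ∈ C', 3 ≤ x := fun x hx => h3 x (by simp [hx])
      have hsum := sum_ge hC3
      have hcM := hc M (by simp)
      -- dominant cases
      rcases Nat.lt_or_ge H (3 * A + B + (n + 3) + 1) with d1 | d1
      swap
      · apply win_dom h3
        · simp only [Multiset.card_cons]; omega
        · simp only [Multiset.card_cons, Multiset.sum_cons] at hs ⊢; omega
      rcases Nat.lt_or_ge M (3 * A + B + (n + 3) + 1) with d2 | d2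
      swap
      · apply win_dom1 (fun c hc' => h3 c (Multiset.mem_cons_of_mem hc')) hH
        · simp only [Multiset.card_cons]; omega
        · simp only [Multiset.card_cons, Multiset.sum_cons] at hcM ⊢; omega
      have hM14 : 14 ≤ M := by
        by_contra hcon
        have : sm (M ::ₘ M2 ::ₘ m ::ₘ C') = (M ::ₘ M2 ::ₘ m ::ₘ C').sum := by
          apply sm_eq
          intro c hc'
          rcases Multiset.mem_cons.1 hc' with h | h
          · omega
          rcases Multiset.mem_cons.1 h with h | h
          · omega
          rcases Multiset.mem_cons.1 h with h | h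
          · omega
          have := hC' c h
          omega
        rw [this] at hsm
        omega
      simp only [Multiset.sum_cons] at hs hW
      rcases Nat.lt_or_ge (m + 2) (3 * A + B + 1) with d3 | d3
      swap
      · exact nearpour (by omega) (fun c hc' => h3 c (by
          simp only [Multiset.mem_cons] at hc' ⊢; tauto)) hH (by omega) (by omega)
      have hsm1 : sm (M2 ::ₘ m ::ₘ C') ≤ 225 := le_trans (sm_cons_le _ _) hsm
      have hsm2 : sm (m ::ₘ C') ≤ 225 := le_trans (sm_cons_le _ _) hsm1
      have hsm3 : sm (M ::ₘ M2 ::ₘ C') ≤ 225 := by
        have e : M ::ₘ M2 ::ₘ m ::ₘ C' = m ::ₘ M ::ₘ M2 ::ₘ C' := by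
          rw [Multiset.cons_swap M2 m, Multiset.cons_swap M m]
        rw [e] at hsm
        exact le_trans (sm_cons_le _ _) hsm
      have hsm4 : sm (M2 ::ₘ C') ≤ 225 := le_trans (sm_cons_le _ _) hsm3
      obtain ⟨D, hD⟩ : ∃ D, D + (2 * A + B + 1 + (n + 3)) = H + (M + (M2 + (m + C'.sum))) :=
        ⟨H + (M + (M2 + (m + C'.sum))) - (2 * A + B + 1 + (n + 3)), by omega⟩
      have hT := TT_le (n + 2)
      have hT1 := TT_le (n + 1)
      -- the step on the smallest face
      by_cases k1 : M + m + 2 ≤ D ∧ 2 * m + 14 ≤ 3 * H ∧ m + 1 ≤ H + A
      · obtain ⟨l1, l2, l3⟩ := k1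
        obtain ⟨a, b, q, e1, e2, e3, e4, e5, e6⟩ := fill (x := m) (y := H) (A := A) (B := B)
          (D := D) (M := M) hm3 (by omega) (by omega) l2 l3 (by omega) (by omega)
          (by omega) (by omega)
        have h5 := ih (n + 2) (by omega) (H - (3 * a + 2 * b + q + 1)) (A - a - b) (B - q)
          (M ::ₘ M2 ::ₘ C') (by simp only [Multiset.card_cons]; omega)
          (by
            intro c hc'
            apply h3
            simp only [Multiset.mem_cons] at hc' ⊢; tauto) (by omega) hsm3
          (by simp only [Multiset.sum_cons]; omega) (by simp only [Multiset.sum_cons]; omega)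
          (by
            intro c hc'
            have : c ≤ M := by
              simp only [Multiset.mem_cons] at hc'
              rcases hc' with h | h | h
              · omega
              · omega
              · have := hC' c h; omega
            simp only [Multiset.sum_cons]
            omega)
        exact (win_L a b q h5).congr (by omega) (by
          rw [e1, Multiset.cons_swap m M, Multiset.cons_swap m M2]) (by omega) (by omega)
      -- the step on the largest face
      have hfM : ∀ c ∈ M2 ::ₘ m ::ₘ C', c ≤ M2 := by
        intro c hc'
        simp only [Multiset.mem_cons] at hc'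
        rcases hc' with h | h | h
        · omega
        · omega
        · exact (hC' c h).2
      rcases Nat.lt_or_ge H 3 with k2 | k2
      · rcases Nat.lt_or_ge H 2 with k3 | k3
        · -- H = 1
          have hH1 : H = 1 := by omega
          subst hH1
          have h5 := ih (n + 2) (by omega) (M - 1) A B (M2 ::ₘ m ::ₘ C')
            (by simp only [Multiset.card_cons]; omega)
            (fun c hc' => h3 c (Multiset.mem_cons_of_mem hc')) (by omega) hsm1
            (by simp only [Multiset.sum_cons]; omega) (by simp only [Multiset.sum_cons]; omega)
            (by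
              intro c hc'
              have := hfM c hc'
              simp only [Multiset.sum_cons]
              omega)
          exact (win_S 0 0 0 0 h5).congr (by omega) (by congr 1; omega) (by omega) (by omega)
        · have hH2 : H = 2 := by omega
          subst hH2
          rcases Nat.eq_zero_or_pos B with hB | hB
          · subst hB
            rcases Nat.eq_zero_or_pos n with hn0 | hn0
            · subst hn0
              rw [Multiset.card_eq_zero] at hcard
              subst hcard
              simp only [Multiset.sum_zero] at *
              have h5 : Win (M - 1) (M2 ::ₘ {m}) A 0 :=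
                base2 (by omega) hm3 hm (by omega) (by omega) (by omega) (by omega)
              exact (win_S 1 0 0 0 h5).congr (by omega) (by
                rw [Multiset.cons_zero]; congr 1; omega) (by omega) (by omega)
            · -- an ear on the hub
              obtain ⟨y, hy⟩ : ∃ y, y ∈ C' := by
                apply Multiset.exists_mem_of_ne_zero
                rintro rfl
                simp at hcard
                omega
              have hy1 := hC' y hy
              have hy2 := sum_ge' hC3 hy
              obtain ⟨s, a, b, hs1, g1, g2, g3, g4, g5⟩ := fillR (m := m) (M := M) (A := A)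
                (D := D) (M2 := M2) hm3 (by omega) hM14 (by omega) (by omega) (by omega)
                (by omega) (by omega)
              have h5 := ih (n + 1) (by omega) (M + s - 4 - 3 * a - 2 * b) (A - 1 - a - b) 0
                (M2 ::ₘ C') (by simp only [Multiset.card_cons]; omega)
                (by
                  intro c hc'
                  apply h3
                  simp only [Multiset.mem_cons] at hc' ⊢; tauto) (by omega) hsm4
                (by simp only [Multiset.sum_cons]; omega)
                (by simp only [Multiset.sum_cons]; omega)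
                (by
                  intro c hc'
                  have : c ≤ M2 := by
                    simp only [Multiset.mem_cons] at hc'
                    rcases hc' with h | h
                    · omega
                    · exact (hC' c h).2
                  simp only [Multiset.sum_cons]
                  omega)
              rcases Nat.eq_zero_or_pos s with hs0 | hs0
              · subst hs0
                exact (win_R a b 0 h5).congr rfl (by
                  rw [Multiset.cons_swap M2 m]
                  congr 1
                  · omega
                  · congr 1) (by omega) (by omega)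
              · have hs2 : s = 1 := by omega
                subst hs2
                exact (win_R' a b 0 h5).congr rfl (by
                  rw [Multiset.cons_swap M2 m]
                  congr 1
                  · omega
                  · congr 1) (by omega) (by omega)
          · -- H = 2, one quadrangle
            have h5 := ih (n + 2) (by omega) (M - 2) A (B - 1) (M2 ::ₘ m ::ₘ C')
              (by simp only [Multiset.card_cons]; omega)
              (fun c hc' => h3 c (Multiset.mem_cons_of_mem hc')) (by omega) hsm1
              (by simp only [Multiset.sum_cons]; omega) (by simp only [Multiset.sum_cons]; omega)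
              (by
                intro c hc'
                have := hfM c hc'
                simp only [Multiset.sum_cons]
                omega)
            exact (win_S 0 0 0 1 h5).congr (by omega) (by congr 1; omega) (by omega) (by omega)
      · obtain ⟨a, b, q, e1, e2, e3, e4, e5, e6⟩ := fill (x := H) (y := M) (A := A) (B := B)
          (D := D) (M := M2) k2 (by omega) (by omega) (by omega) (by omega) (by omega) (by omega)
          (by omega) (by omega)
        have h5 := ih (n + 2) (by omega) (M - (3 * a + 2 * b + q + 1)) (A - a - b) (B - q)
          (M2 ::ₘ m ::ₘ C') (by simp only [Multiset.card_cons]; omega)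
          (fun c hc' => h3 c (Multiset.mem_cons_of_mem hc')) (by omega) hsm1
          (by simp only [Multiset.sum_cons]; omega) (by simp only [Multiset.sum_cons]; omega)
          (by
            intro c hc'
            have := hfM c hc'
            simp only [Multiset.sum_cons]
            omega)
        exact (win_S 0 b a q h5).congr (by omega) (by congr 1; omega) (by omega) (by omega)

end Pool.Agent.Helper79.HX
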