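import Pool.Agent.Helper79.HY.Main5
import Pool.Agent.Helper79.HY.Blk

/-!
# The blocks first, then the main construction
-/

namespace Pool.Agent.Helper79.HX

open Finset

theorem blk_step {c k t p : ℕ} (hb : ∀ M, Conf 5 3 4 M → Conf 5 3 4 (M +
    Multiset.replicate k (c + 4) + Multiset.replicate t 3 + Multiset.replicate p 5))
    {C : Multiset ℕ} {A B : ℕ} (h : Win5 C A B) : Win5 (Multiset.replicate k c + C) (A + t) B := by
  have h1 := win5_block (D := Multiset.replicate k c) (A' := t) (B' := 0) h (by
    intro M hM
    refine ⟨p, (hb M hM).congr ?_⟩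
    intro j
    simp only [Multiset.count_add, Multiset.map_replicate, Multiset.replicate_zero,
      Multiset.count_zero]
    omega)
  exact h1

theorem sm_eq_sum (C : Multiset ℕ) : sm C = ∑ c ∈ Finset.range 14, C.count c * c := by
  induction C using Multiset.induction_on with
  | empty => simp [sm]
  | cons x C ih =>
    have h1 : ∀ c ∈ Finset.range 14, (x ::ₘ C).count c * c =
        C.count c * c + (if c = x then c else 0) := by
      intro c _
      rw [Multiset.count_cons]
      split_ifs <;> ring
    rw [Finset.sum_congr rfl h1, Finset.sum_add_distrib, ← ih, Finset.sum_ite_eq']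
    unfold sm
    by_cases h : x ≤ 13
    · rw [Multiset.filter_cons_of_pos (p := fun c => c ≤ 13) C h, Multiset.sum_cons,
        if_pos (Finset.mem_range.2 (by omega))]
      omega
    · rw [Multiset.filter_cons_of_neg (p := fun c => c ≤ 13) C h,
        if_neg (by rw [Finset.mem_range]; omega)]
      omega

theorem stage0 : ∀ (N A B : ℕ) (F : Multiset ℕ), Multiset.card F = N → (∀ f ∈ F, 3 ≤ f) →
    5 * A + 2 * B + 2 * N + 151 ≤ F.sum → (∀ f ∈ F, f + 2 * A + B + N ≤ F.sum) →
    Win5 F A B := by
  intro N
  induction N using Nat.strong_induction_on with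
  | _ N ih =>
    intro A B F hN h3 hW hF
    have h2 : 2 ≤ Multiset.card F := by
      rcases Nat.lt_or_ge (Multiset.card F) 2 with h | h
      · exfalso
        rcases Nat.eq_zero_or_pos (Multiset.card F) with h0 | h0
        · rw [Multiset.card_eq_zero] at h0
          subst h0
          simp at hW
        · obtain ⟨y, rfl⟩ := Multiset.card_eq_one.1 (show Multiset.card F = 1 by omega)
          have := hF y (by simp)
          rw [Multiset.sum_singleton] at this
          rw [Multiset.card_singleton] at hN
          omega
      · exact h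
    obtain ⟨f, m, C', hFe, hmf, hC'⟩ := decomp F h2
    obtain ⟨C, hC⟩ : ∃ C, C = m ::ₘ C' := ⟨_, rfl⟩
    rw [← hC] at hFe
    have hfle : ∀ c ∈ C, c ≤ f := by
      intro c hc
      rw [hC] at hc
      rcases Multiset.mem_cons.1 hc with h | h
      · omega
      · exact (hC' c h).2
    have hf3 : 3 ≤ f := h3 f (by rw [hFe]; simp)
    have hC3 : ∀ c ∈ C, 3 ≤ c := fun c hc => h3 c (by rw [hFe]; exact Multiset.mem_cons_of_mem hc)
    have hcard : Multiset.card C + 1 = N := by rw [← hN, hFe, Multiset.card_cons]
    have hsum : F.sum = f + C.sum := by rw [hFe, Multiset.sum_cons]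
    have hFf := hF f (by rw [hFe]; simp)
    rcases Nat.lt_or_ge (f - 1) (3 * A + B + Multiset.card C + 1) with d | d
    swap
    · rw [hFe]
      exact win5_of_win (by omega) (win_dom hC3 d (by omega))
    have hall : ∀ c ∈ F, c ≤ f := by
      intro c hc
      rw [hFe] at hc
      rcases Multiset.mem_cons.1 hc with h | h
      · omega
      · exact hfle c h
    rcases Nat.lt_or_ge 37 A with hA | hA
    swap
    · rw [hFe]
      refine win5_of_win (by omega) (big (N - 1) (f - 1) A B C (by omega) hC3 (by omega)
        (Or.inl (by omega)) (by omega) ?_)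
      intro c hc
      have := hfle c hc
      omega
    have step : ∀ c k t p : ℕ, 1 ≤ k → k ≤ 6 → t ≤ 9 → k * c ≤ 5 * t + 2 * k →
        (∀ M, Conf 5 3 4 M → Conf 5 3 4 (M + Multiset.replicate k (c + 4) +
          Multiset.replicate t 3 + Multiset.replicate p 5)) → k ≤ F.count c → Win5 F A B := by
      intro c k t p hk1 hk6 ht hkc hb hcount
      have hle : Multiset.replicate k c ≤ F := Multiset.le_count_iff_replicate_le.1 hcount
      obtain ⟨F', hF'⟩ := Multiset.le_iff_exists_add.1 hle
      have hcF : Multiset.card F' + k = N := by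
        rw [← hN, hF', Multiset.card_add, Multiset.card_replicate]; omega
      have hsF : F.sum = k * c + F'.sum := by
        rw [hF', Multiset.sum_add, Multiset.sum_replicate, smul_eq_mul]
      have h5 := ih (N - k) (by omega) (A - t) B F' (by omega)
        (fun x hx => h3 x (by rw [hF']; exact Multiset.mem_add.2 (Or.inr hx))) (by omega)
        (by
          intro x hx
          have := hall x (by rw [hF']; exact Multiset.mem_add.2 (Or.inr hx))
          omega)
      have h6 := blk_step hb h5
      rw [← hF'] at h6
      have e : A - t + t = A := by omega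
      rw [e] at h6
      exact h6
    by_cases b3 : 6 ≤ F.count 3
    · exact step 3 6 2 0 (by omega) (by omega) (by omega) (by omega) (fun M h => h.blk3) b3
    by_cases b4 : 4 ≤ F.count 4
    · exact step 4 4 2 2 (by omega) (by omega) (by omega) (by omega) (fun M h => h.blk4) b4
    by_cases b5 : 3 ≤ F.count 5
    · exact step 5 3 2 3 (by omega) (by omega) (by omega) (by omega) (fun M h => h.blk5) b5
    by_cases b6 : 5 ≤ F.count 6
    · exact step 6 5 4 8 (by omega) (by omega) (by omega) (by omega) (fun M h => h.blk6) b6
    by_cases b7 : 2 ≤ F.count 7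
    · exact step 7 2 2 4 (by omega) (by omega) (by omega) (by omega) (fun M h => h.blk7) b7
    by_cases b8 : 3 ≤ F.count 8
    · exact step 8 3 4 6 (by omega) (by omega) (by omega) (by omega) (fun M h => h.blk8) b8
    by_cases b9 : 4 ≤ F.count 9
    · exact step 9 4 6 10 (by omega) (by omega) (by omega) (by omega) (fun M h => h.blk9) b9
    by_cases b10 : 4 ≤ F.count 10
    · exact step 10 4 7 11 (by omega) (by omega) (by omega) (by omega) (fun M h => h.blk10) b10
    by_cases b11 : 4 ≤ F.count 11
    · exact step 11 4 8 12 (by omega) (by omega) (by omega) (by omega) (fun M h => h.blk11) b11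
    by_cases b12 : 2 ≤ F.count 12
    · exact step 12 2 4 8 (by omega) (by omega) (by omega) (by omega) (fun M h => h.blk12) b12
    by_cases b13 : 4 ≤ F.count 13
    · exact step 13 4 9 17 (by omega) (by omega) (by omega) (by omega) (fun M h => h.blk13) b13
    have hlow : ∀ c, c < 3 → F.count c = 0 := by
      intro c hc
      rw [Multiset.count_eq_zero]
      intro hmem
      have := h3 c hmem
      omega
    have hsm : sm F ≤ 225 := by
      have h0 := hlow 0 (by omega)
      have h1 := hlow 1 (by omega)
      have h2 := hlow 2 (by omega)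
      rw [sm_eq_sum]
      simp only [Finset.sum_range_succ, Finset.sum_range_zero]
      omega
    have hsm' : sm C ≤ 225 := by
      rw [hFe] at hsm
      exact le_trans (sm_cons_le _ _) hsm
    have hT := TT_le (N - 1)
    rw [hFe]
    refine win5_of_win (by omega) (main5 (N - 1) (f - 1) A B C (by omega) hC3 (by omega) hsm'
      (by omega) (by omega) ?_)
    intro c hc
    have := hfle c hc
    omega

end Pool.Agent.Helper79.HX
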